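import Mathlib
import Pool.Agent.Y576.CC.Group

/-!
# A countably compact topological group whose square is not countably compact, without any
set-theoretic hypothesis

Full answer to the question: such a group exists.  It can be taken abelian, of exponent two,
a subgroup of a power of the two-element group, and of cardinality
at most the continuum.
-/

namespace Pool.Agent.Results.MP_672973_lc.SquareNotCountablyCompact

open Topology Filter Cardinal Pool.Agent.Y576.CC

/-- Every countable open cover has a finite subcover. -/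
def CountablyCompact (X : Type) [TopologicalSpace X] : Prop :=
  ∀ 𝒰 : Set (Set X), 𝒰.Countable → (∀ U ∈ 𝒰, IsOpen U) → ⋃₀ 𝒰 = Set.univ →
    ∃ ℱ ⊆ 𝒰, ℱ.Finite ∧ ⋃₀ ℱ = Set.univ

/-- Every infinite subset has an accumulation point: a point each of whose neighbourhoods contains
infinitely many points of the subset. -/
def InfiniteSubsetsAccumulate (X : Type) [TopologicalSpace X] : Prop :=
  ∀ S : Set X, S.Infinite → ∃ x : X, ∀ U ∈ 𝓝 x, (U ∩ S).Infinite

theorem cc_iff (X : Type) [TopologicalSpace X] : CountablyCompact X ↔ CountablyCompactSpace X := by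
  constructor
  · intro h
    refine ⟨isCountablyCompact_iff_countable_open_cover'.2 fun U hU hc => ?_⟩
    obtain ⟨ℱ, h1, h2, h3⟩ := h (Set.range U) (Set.countable_range U)
      (by rintro _ ⟨n, rfl⟩; exact hU n)
      (by rw [Set.sUnion_range]; exact Set.univ_subset_iff.1 hc)
    have h1' : ∀ F ∈ ℱ, ∃ n, U n = F := fun F hF => h1 hF
    choose! n hn using h1'
    refine ⟨n '' ℱ, h2.image n, ?_⟩
    rw [← h3]
    rintro x ⟨F, hF, hx⟩
    refine Set.mem_biUnion (Set.mem_image_of_mem n hF) ?_
    rw [hn F hF]
    exact hx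
  · intro h 𝒰 h1 h2 h3
    obtain ⟨t, ht1, ht2, ht3⟩ := h.isCountablyCompact_univ.elim_finite_subcover_image h1
      (U := id) h2 (by
        rw [← h3, Set.sUnion_eq_biUnion]
        exact le_rfl)
    exact ⟨t, ht1, ht2, by
      rw [Set.sUnion_eq_biUnion]
      exact Set.univ_subset_iff.1 ht3⟩

theorem acc_of_cc {X : Type} [TopologicalSpace X] [T1Space X] (h : CountablyCompactSpace X) :
    InfiniteSubsetsAccumulate X := by
  intro S hS
  obtain ⟨x, -, hx⟩ := h.isCountablyCompact_univ.exists_accPt_of_infinite (Set.subset_univ S) hS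
  refine ⟨x, fun U hU => ?_⟩
  rw [accPt_iff_frequently_nhdsNE] at hx
  intro hfin
  have h1 : (U ∩ ((U ∩ S) \ {x})ᶜ) ∈ 𝓝 x := by
    refine Filter.inter_mem hU ?_
    exact (hfin.subset Set.sdiff_subset).isClosed.isOpen_compl.mem_nhds (by simp)
  have h2 : ∃ᶠ y in 𝓝 x, y ≠ x ∧ y ∈ S := by
    simpa [frequently_nhdsWithin_iff, and_comm] using hx
  obtain ⟨y, ⟨hy1, hy2⟩, hy3, hy4⟩ := (h2.and_eventually h1).exists
  exact hy4 ⟨⟨hy3, hy2⟩, hy1⟩

/-- The construction, with the bound on the cardinality. -/
theorem exists_group : ∃ G : AddSubgroup K, #G ≤ 𝔠 ∧ Infinite G ∧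
    CountablyCompactSpace G ∧ ¬ CountablyCompactSpace (G × G) := by
  classical
  obtain ⟨f, hf, hf'⟩ := exists_sys
  obtain ⟨z, hz⟩ := exists_construction hf
  let G : AddSubgroup K := (ev z).toAddMonoidHom.range
  have hG : ∀ v, ev z v ∈ G := fun v => ⟨v, rfl⟩
  refine ⟨G, ?_, ?_, ⟨?_⟩, fun hcc => ?_⟩
  · rw [← mk_V]
    exact mk_le_of_surjective (f := fun v : V => (⟨ev z v, hG v⟩ : G)) fun g => by
      obtain ⟨v, hv⟩ := g.2
      exact ⟨v, Subtype.ext hv⟩
  · refine Infinite.of_injective
      (fun n : ℕ => (⟨ev z (Finsupp.single (Sum.inl (true, n)) 1), hG _⟩ : G)) fun m n hmn => ?_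
    have h1 := congrArg Subtype.val hmn
    simp only [ev_inl] at h1
    by_contra hne
    have h2 := congrFun h1 (test true fun i => if i = m then 1 else 0)
    simp [test, Ne.symm hne] at h2
  · rw [isCountablyCompact_iff_infinite_subset_has_accPt]
    intro S _ hS
    let s : ℕ → G := fun n => (Set.Infinite.natEmbedding S hS n : G)
    have hs : Function.Injective s :=
      Subtype.val_injective.comp (Set.Infinite.natEmbedding S hS).injective
    have hsS : ∀ n, s n ∈ S := fun n => (Set.Infinite.natEmbedding S hS n).2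
    choose v hv using fun n => (s n).2
    have hv' : ∀ n, ev z (v n) = s n := hv
    have hvi : Function.Injective v := by
      intro m n hmn
      apply hs
      apply Subtype.ext
      rw [← hv' m, ← hv' n, hmn]
    obtain ⟨σ, hσ, hind⟩ := exists_subseq hvi
    obtain ⟨α, hα⟩ := hf' _ hind
    obtain ⟨ξ, hξ⟩ := (hz α).1
    have hξ' : z α = plimK (up α ξ) fun n => (s (σ n) : K) := by
      rw [hξ, hα]
      congr 1
      funext n
      exact hv' (σ n)
    let g : G := ⟨z α, by rw [← ev_inr z α]; exact hG _⟩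
    refine ⟨g, trivial, ?_⟩
    have ht : Tendsto (fun n => s (σ n)) (up α ξ) (𝓝 g) := by
      rw [tendsto_subtype_rng]
      show Tendsto (fun n => (s (σ n) : K)) (up α ξ) (𝓝 (z α))
      rw [hξ']
      exact tendsto_plimK _ _
    rw [accPt_iff_nhds]
    intro W hW
    have h1 : {n | s (σ n) ∈ W} ∈ up α ξ := ht hW
    have h2 : {n | s (σ n) = g}ᶜ ∈ up α ξ := by
      have h3 : {n | s (σ n) = g}.Subsingleton := by
        intro m hm n hn
        exact hσ.injective (hs (hm.trans hn.symm))
      have h4 : ({n | s (σ n) = g}ᶜ : Set ℕ) ∈ (atTop : Filter ℕ) := by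
        rw [← Nat.cofinite_eq_atTop]
        exact h3.finite.compl_mem_cofinite
      exact pt_le_atTop _ h4
    obtain ⟨n, hn1, hn2⟩ := Filter.nonempty_of_mem (Filter.inter_mem h1 h2)
    exact ⟨s (σ n), ⟨hn1, hsS _⟩, hn2⟩
  · let x : Bool → ℕ → G := fun i n => ⟨ev z (Finsupp.single (Sum.inl (i, n)) 1), hG _⟩
    have h1 := isCountablyCompact_iff_seq_clusterPt.1 hcc.isCountablyCompact_univ
      (fun n => (x true n, x false n)) (Eventually.of_forall fun _ => trivial)
    obtain ⟨⟨g, h⟩, _, hgh⟩ := h1
    obtain ⟨q, hq1, hq2⟩ := mapClusterPt_iff_ultrafilter.1 hgh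
    have key : ∀ i : Bool, ∀ y : G, Tendsto (x i) q (𝓝 y) → (y : K) = E q i := by
      intro i y hy
      have h2 : Tendsto (fun n => (x i n : K)) q (𝓝 (y : K)) := by
        have := (continuous_subtype_val (p := (· ∈ G))).continuousAt.tendsto.comp hy
        exact this
      rw [← tendsto_K h2]
      funext φ
      show plim q (fun n => ev z (Finsupp.single (Sum.inl (i, n)) 1) φ) = plim q fun n => φ (i, n)
      simp only [ev_inl]
    have hg := key true g ((continuous_fst.continuousAt.tendsto.comp hq2))
    have hh := key false h ((continuous_snd.continuousAt.tendsto.comp hq2))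
    obtain ⟨v, hv⟩ := g.2
    obtain ⟨w, hw⟩ := h.2
    refine no_common hz v w q ?_ ⟨hv.trans hg, hw.trans hh⟩
    rw [Nat.cofinite_eq_atTop]
    exact hq1

theorem cc_of_acc {X : Type} [TopologicalSpace X] [T1Space X] (h : InfiniteSubsetsAccumulate X) :
    CountablyCompactSpace X := by
  refine ⟨?_⟩
  rw [isCountablyCompact_iff_infinite_subset_has_accPt]
  intro S _ hS
  obtain ⟨x, hx⟩ := h S hS
  refine ⟨x, trivial, ?_⟩
  rw [accPt_iff_nhds]
  intro U hU
  obtain ⟨y, hy, hne⟩ := (hx U hU).exists_notMem_finite (Set.finite_singleton x)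
  exact ⟨y, hy, hne⟩

/-- There is an infinite commutative topological group `G`, completely regular and Hausdorff, in
which every element is its own inverse, of cardinality at most the continuum, such that `G` is
countably compact (in both senses) and `G × G` is not countably compact (in either sense). -/
theorem result :
    ∃ (G : Type) (_ : CommGroup G) (_ : TopologicalSpace G),
      IsTopologicalGroup G ∧ T35Space G ∧ (∀ x : G, x * x = 1) ∧ Infinite G ∧ #G ≤ 𝔠 ∧
        CountablyCompact G ∧ InfiniteSubsetsAccumulate G ∧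
          ¬ CountablyCompact (G × G) ∧ ¬ InfiniteSubsetsAccumulate (G × G) := by
  obtain ⟨G, h1, h2, h3, h4⟩ := exists_group
  have hT : T35Space G := inferInstance
  refine ⟨Multiplicative G, inferInstance, inferInstance, inferInstance, hT, fun x => ?_, h2, h1,
    (cc_iff _).2 h3, acc_of_cc (X := G) h3, fun h => h4 ((cc_iff _).1 h),
    fun h => h4 (cc_of_acc (X := G × G) h)⟩
  apply Multiplicative.toAdd.injective
  exact Subtype.ext (add_self _)

end Pool.Agent.Results.MP_672973_lc.SquareNotCountablyCompact
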